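import Pool.Agent.H348R6.GV2

/-!
# Filters which contain the clubs and fail the Galvin property for families of size `2 ^ κ`
-/

set_option autoImplicit false

namespace Run7.h602.GalPow

open Cardinal Set Pool.Agent.H348R6.GV

universe u

variable {κ : Cardinal.{u}}

/-- Branches of the tree of subsets of bounded parts of `κ`, coded by elements of `κ`: if
`2 ^ μ ≤ κ` for all `μ < κ` there are `2 ^ κ` many eventually different functions. -/
theorem exists_branches (hκ : κ.IsRegular) (hpow : ∀ μ < κ, (2 : Cardinal.{u}) ^ μ ≤ κ) :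
    ∃ h : Set κ.ord.ToType → κ.ord.ToType → κ.ord.ToType,
      ∀ S T, S ≠ T → ∃ b, ∀ a, b ≤ a → h S a ≠ h T a := by
  classical
  have hinj : ∀ a : κ.ord.ToType, ∃ e : Set (Iic a) → κ.ord.ToType, Function.Injective e := by
    intro a
    have h1 : #(Set (Iic a)) ≤ #κ.ord.ToType := by
      rw [mk_set, Cardinal.mk_toType, card_ord]
      exact hpow _ (mk_Iic_lt hκ a)
    obtain ⟨e⟩ := h1
    exact ⟨e, e.injective⟩
  choose e he using hinj
  refine ⟨fun S a => e a ((↑) ⁻¹' S), fun S T hST => ?_⟩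
  obtain ⟨b, hb⟩ : ∃ b, ¬ (b ∈ S ↔ b ∈ T) := by
    by_contra hcon
    push Not at hcon
    exact hST (Set.ext hcon)
  refine ⟨b, fun a ha heq => hb ?_⟩
  have h1 := he a heq
  have h2 := Set.ext_iff.1 h1 ⟨b, ha⟩
  exact h2

/-- The construction, for any family of eventually different functions. -/
theorem main (hκ : κ.IsRegular) (hω : ℵ₀ < κ) {Λ : Type u}
    (h : Λ → κ.ord.ToType → κ.ord.ToType)
    (hh : ∀ i j, i ≠ j → ∃ b, ∀ a, b ≤ a → h i a ≠ h j a) :
    ∃ F : Filter κ.ord.ToType, F.NeBot ∧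
      (∀ S : Set (Set κ.ord.ToType), #S < κ → (∀ s ∈ S, s ∈ F) → ⋂₀ S ∈ F) ∧
      (∀ C, IsClub C → C ∈ F) ∧
      ∃ A : Λ → Set κ.ord.ToType, Function.Injective A ∧ (∀ i, A i ∈ F) ∧
        ∀ I : Set Λ, #I = κ → ⋂ i ∈ I, A i ∉ F := by
  classical
  obtain ⟨t, ht, htd⟩ := exists_pieces hκ hω
  have := nonempty_toType hκ
  have hno : ∀ a : κ.ord.ToType, ∃ b, a < b := fun a => by
    obtain ⟨b, hb⟩ := hcU_toType hκ hω (fun _ : PUnit.{u+1} => a)
    exact ⟨b, hb ⟨⟩⟩
  refine ⟨theFilter hκ h t hω, ?_, ?_, ?_, ?_⟩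
  · -- proper
    rw [Filter.neBot_iff]
    intro hbot
    have h0 : (∅ : Set κ.ord.ToType) ∈ theFilter hκ h t hω := by rw [hbot]; trivial
    obtain ⟨J, hJ, hJ2⟩ := (mem_theFilter _ _ _ _ _).1 h0
    obtain ⟨x⟩ := nonempty_toType hκ
    have hy : ∃ y : κ.ord.ToType, ∀ i ∈ J, y ≠ h i x := by
      obtain ⟨y, hy⟩ := bdd_of_lt hκ (fun i : J => h i.1 x) hJ
      exact ⟨y, fun i hi => (hy ⟨i, hi⟩).ne'⟩
    obtain ⟨y, hy⟩ := hy
    have := hJ2 (x, y) hy
    rw [sdiff_empty] at this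
    exact ht _ this
  · -- completeness
    intro S hS hSF
    choose! J hJ hJ2 using fun s (hs : s ∈ S) => (mem_theFilter _ _ _ _ _).1 (hSF s hs)
    refine (mem_theFilter _ _ _ _ _).2 ⟨⋃ s : S, J s.1, ?_, fun p hp => ?_⟩
    · exact (card_iUnion_lt_iff_forall_of_isRegular hκ hS).2 (fun s => hJ s.1 s.2)
    · have h1 : ∀ s : S, Thin (t p \ s.1) := fun s =>
        hJ2 s.1 s.2 p (fun i hi => hp i (mem_iUnion.2 ⟨s, hi⟩))
      refine (thin_iUnion (fun g => bdd_of_lt hκ g hS) h1).mono ?_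
      rintro a ⟨ha, haS⟩
      rw [mem_sInter] at haS
      push Not at haS
      obtain ⟨s, hs, has⟩ := haS
      exact mem_iUnion.2 ⟨⟨s, hs⟩, ha, has⟩
  · -- clubs
    intro C hC
    refine (mem_theFilter _ _ _ _ _).2 ⟨∅, by simpa using hκ.pos, fun p _ => ?_⟩
    exact (thin_compl_of_isClub hno hC).mono (fun a ha => ha.2)
  · -- not Galvin
    refine ⟨fun i => (⋃ x, t (x, h i x))ᶜ, fun i j hij => ?_, fun i => ?_, fun I hI hF => ?_⟩
    · by_contra hne
      obtain ⟨b, hb⟩ := hh i j hne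
      have h1 : (⋃ x, t (x, h i x)) = ⋃ x, t (x, h j x) := compl_injective hij
      obtain ⟨a, ha⟩ : (t (b, h i b)).Nonempty := by
        by_contra hcon
        rw [Set.not_nonempty_iff_eq_empty] at hcon
        exact ht (b, h i b) (by rw [hcon]; exact thin_empty)
      have h2 : a ∈ ⋃ x, t (x, h j x) := h1 ▸ mem_iUnion.2 ⟨b, ha⟩
      obtain ⟨x, hx⟩ := mem_iUnion.1 h2
      by_cases hxb : x = b
      · subst hxb
        refine absurd ha (Set.disjoint_right.1 (htd (x, h i x) (x, h j x) ?_) hx)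
        intro h3
        exact hb x le_rfl (congrArg Prod.snd h3)
      · refine absurd ha (Set.disjoint_right.1 (htd (b, h i b) (x, h j x) ?_) hx)
        intro h3
        exact hxb (congrArg Prod.fst h3).symm
    · refine (mem_theFilter _ _ _ _ _).2 ⟨{i}, ?_, fun p hp => ?_⟩
      · simpa using one_lt_aleph0.trans_le hκ.aleph0_le
      · have hp' := hp i rfl
        refine thin_empty.mono ?_
        rintro a ⟨ha, ha2⟩
        simp only [mem_compl_iff, not_not, mem_iUnion] at ha2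
        obtain ⟨x, hx⟩ := ha2
        have hne : p ≠ (x, h i x) := by
          rintro rfl
          exact hp' rfl
        exact absurd hx (Set.disjoint_left.1 (htd _ _ hne) ha)
    · obtain ⟨J, hJ, hJ2⟩ := (mem_theFilter _ _ _ _ _).1 hF
      have hex : ∃ i ∈ I, i ∉ J := by
        by_contra hcon
        push Not at hcon
        have := mk_le_mk_of_subset (s := I) (t := J) hcon
        rw [hI] at this
        exact absurd (this.trans_lt hJ) (lt_irrefl _)
      obtain ⟨i, hiI, hiJ⟩ := hex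
      have hb : ∀ j : J, ∃ b, ∀ a, b ≤ a → h i a ≠ h j.1 a := by
        rintro ⟨j, hj⟩
        exact hh i j fun hij => hiJ (hij ▸ hj)
      choose b hb using hb
      obtain ⟨x, hx⟩ := bdd_of_lt hκ b hJ
      have h1 := hJ2 (x, h i x) (fun j hj => hb ⟨j, hj⟩ x (hx ⟨j, hj⟩).le)
      refine ht (x, h i x) (h1.mono ?_)
      intro a ha
      refine ⟨ha, fun ha2 => ?_⟩
      have ha3 := mem_iInter₂.1 ha2 i hiI
      exact ha3 (mem_iUnion.2 ⟨x, ha⟩)

end Run7.h602.GalPow
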